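import Pool.Agent.J4H22.IX.Stm3
import Pool.Agent.J4H94.IX.Hg

set_option autoImplicit false

/-! # Project IX, (HGC): a multiplier is good in the convolution form -/

namespace Pool.Agent.J4H3.IX

open Finset Pool.Agent.J4H22.IX

theorem uniq {m u v r s : ℕ} (hr : r < m) (hs : s < m) (h : m * u + r = m * v + s) :
    u = v ∧ r = s := by
  rcases lt_trichotomy u v with h1 | h1 | h1
  · have h2 := Nat.mul_le_mul_left m (Nat.succ_le_of_lt h1)
    rw [Nat.mul_succ] at h2
    omega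
  · subst h1
    exact ⟨rfl, by omega⟩
  · have h2 := Nat.mul_le_mul_left m (Nat.succ_le_of_lt h1)
    rw [Nat.mul_succ] at h2
    omega

theorem spr_qcv {n h h' ζ : ℕ} (hn : 1 ≤ n) (e : Fin 2) (H : spr n h + spr n h' = qcv n ζ e) :
    h + h' = ζ := by
  unfold spr qcv at H
  have e1 := Nat.div_add_mod h n
  have e2 := Nat.div_add_mod h' n
  have e3 := Nat.div_add_mod ζ n
  have l1 := Nat.mod_lt h hn
  have l2 := Nat.mod_lt h' hn
  have l3 := Nat.mod_lt ζ hn
  generalize h / n = i at *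
  generalize h' / n = j at *
  generalize ζ / n = k at *
  generalize h % n = r at *
  generalize h' % n = r' at *
  generalize ζ % n = s at *
  split_ifs at H with hc
  · have h1 : 2 * n * (i + j) + (r + r') = 2 * n * k + s := by
      calc 2 * n * (i + j) + (r + r') = i * (2 * n) + r + (j * (2 * n) + r') := by ring
        _ = k * (2 * n) + s := H
        _ = _ := by ring
    obtain ⟨h2, h3⟩ := uniq (by omega) (by omega) h1
    calc h + h' = n * (i + j) + (r + r') := by rw [← e1, ← e2]; ring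
      _ = n * k + s := by rw [h2, h3]
      _ = ζ := e3
  · have hk : k ≠ 0 := fun h0 => hc (Or.inr h0)
    obtain ⟨k', rfl⟩ : ∃ k', k = k' + 1 := ⟨k - 1, by omega⟩
    have h1 : 2 * n * (i + j) + (r + r') = 2 * n * k' + (s + n) := by
      calc 2 * n * (i + j) + (r + r') = i * (2 * n) + r + (j * (2 * n) + r') := by ring
        _ = (k' + 1 - 1) * (2 * n) + s + n := H
        _ = _ := by rw [Nat.add_sub_cancel]; ring
    obtain ⟨h2, h3⟩ := uniq (by omega) (by omega) h1
    calc h + h' = n * (i + j) + (r + r') := by rw [← e1, ← e2]; ring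
      _ = n * k' + (s + n) := by rw [h2, h3]
      _ = n * (k' + 1) + s := by ring
      _ = ζ := e3

theorem exists_qcv {n h h' ζ : ℕ} (hn : 1 ≤ n) (H : h + h' = ζ) :
    ∃ e : Fin 2, spr n h + spr n h' = qcv n ζ e := by
  unfold spr qcv
  have e1 := Nat.div_add_mod h n
  have e2 := Nat.div_add_mod h' n
  have e3 := Nat.div_add_mod ζ n
  have l1 := Nat.mod_lt h hn
  have l2 := Nat.mod_lt h' hn
  have l3 := Nat.mod_lt ζ hn
  generalize h / n = i at *
  generalize h' / n = j at *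
  generalize ζ / n = k at *
  generalize h % n = r at *
  generalize h' % n = r' at *
  generalize ζ % n = s at *
  rcases lt_or_ge (r + r') n with hc | hc
  · have h1 : n * (i + j) + (r + r') = n * k + s := by
      calc n * (i + j) + (r + r') = (n * i + r) + (n * j + r') := by ring
        _ = h + h' := by rw [e1, e2]
        _ = ζ := H
        _ = _ := e3.symm
    obtain ⟨h2, h3⟩ := uniq hc l3 h1
    refine ⟨0, ?_⟩
    rw [if_pos (Or.inl rfl), ← h2, ← h3]
    ring
  · obtain ⟨v, hv⟩ : ∃ v, r + r' = v + n := ⟨r + r' - n, by omega⟩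
    have h1 : n * (i + j + 1) + v = n * k + s := by
      calc n * (i + j + 1) + v = n * (i + j) + (v + n) := by ring
        _ = n * (i + j) + (r + r') := by rw [hv]
        _ = (n * i + r) + (n * j + r') := by ring
        _ = h + h' := by rw [e1, e2]
        _ = ζ := H
        _ = _ := e3.symm
    obtain ⟨h2, h3⟩ := uniq (by omega) l3 h1
    refine ⟨1, ?_⟩
    rw [if_neg (by rw [← h2]; simp), ← h2, ← h3, Nat.add_sub_cancel]
    calc i * (2 * n) + r + (j * (2 * n) + r') = (i + j) * (2 * n) + (r + r') := by ring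
      _ = (i + j) * (2 * n) + (v + n) := by rw [hv]
      _ = _ := by ring

theorem t_HGC : S_HGC := by
  classical
  intro p q n A B z a hq hp hn hz hbad hal
  have key : ∀ x ∈ A, ∀ y ∈ B, ∀ b e,
      spr n (hsh p q a x) + spr n (hsh p q a y) = qcv n (qry p q a z b) e → x + y = z := by
    intro x hx y hy b e hb
    by_contra hne
    obtain ⟨d, hd, hdvd⟩ := Pool.Agent.J4H94.IX.near hq b (spr_qcv hn e hb)
    exact hbad x hx y hy hne d hd hdvd
  have huniq : ∀ x ∈ A, ∀ y ∈ B, ∀ x' ∈ A, ∀ y' ∈ B, x + y = z → x' + y' = z → x = x' ∧ y = y' := by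
    intro x hx y hy x' hx' y' hy' h h'
    have h1 := card_le_one.1 hz (x, y) (by rw [mem_filter, mem_product]; exact ⟨⟨hx, hy⟩, h⟩)
      (x', y') (by rw [mem_filter, mem_product]; exact ⟨⟨hx', hy'⟩, h'⟩)
    rw [Prod.mk.injEq] at h1
    exact h1
  have mem : ∀ (A : Finset ℕ) (u : ℕ), u ∈ cvs p q n a A ↔
      ∃ x ∈ A, Alone p q n a A x ∧ spr n (hsh p q a x) = u := by
    intro A u
    unfold cvs
    rw [mem_image]
    constructor
    · rintro ⟨x, hx, rfl⟩
      rw [mem_filter] at hx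
      exact ⟨x, hx.1, hx.2, rfl⟩
    · rintro ⟨x, hx, h1, rfl⟩
      exact ⟨x, by rw [mem_filter]; exact ⟨hx, h1⟩, rfl⟩
  refine ⟨fun b e => ?_, fun ⟨b, e, hb⟩ => ?_, fun h => ?_⟩
  · unfold rep
    rw [card_le_one]
    rintro ⟨u, u'⟩ hu ⟨v, v'⟩ hv
    rw [mem_filter, mem_product, mem, mem] at hu hv
    obtain ⟨⟨⟨x, hx, -, hxu⟩, ⟨y, hy, -, hyu⟩⟩, hs⟩ := hu
    obtain ⟨⟨⟨x', hx', -, hxv⟩, ⟨y', hy', -, hyv⟩⟩, hs'⟩ := hv
    dsimp only at hxu hyu hs hxv hyv hs'
    subst hxu; subst hyu; subst hxv; subst hyv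
    obtain ⟨rfl, rfl⟩ := huniq x hx y hy x' hx' y' hy' (key x hx y hy b e hs)
      (key x' hx' y' hy' b e hs')
    rfl
  · unfold rep at hb ⊢
    rw [Nat.one_le_iff_ne_zero, ← Nat.pos_iff_ne_zero, card_pos] at hb ⊢
    obtain ⟨⟨u, u'⟩, hu⟩ := hb
    rw [mem_filter, mem_product, mem, mem] at hu
    obtain ⟨⟨⟨x, hx, -, hxu⟩, ⟨y, hy, -, hyu⟩⟩, hs⟩ := hu
    dsimp only at hxu hyu hs
    subst hxu; subst hyu
    exact ⟨(x, y), by rw [mem_filter, mem_product]; exact ⟨⟨hx, hy⟩, key x hx y hy b e hs⟩⟩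
  · unfold rep at h
    rw [Nat.one_le_iff_ne_zero, ← Nat.pos_iff_ne_zero, card_pos] at h
    obtain ⟨⟨x, y⟩, hxy⟩ := h
    rw [mem_filter, mem_product] at hxy
    obtain ⟨⟨hx, hy⟩, hs⟩ := hxy
    obtain ⟨b, hb⟩ := Pool.Agent.J4H94.IX.exists_qry (a := a) hp hq hs
    obtain ⟨e, he⟩ := exists_qcv hn hb
    obtain ⟨h1, h2⟩ := hal x hx y hy hs
    refine ⟨b, e, ?_⟩
    unfold rep
    rw [Nat.one_le_iff_ne_zero, ← Nat.pos_iff_ne_zero, card_pos]
    exact ⟨(spr n (hsh p q a x), spr n (hsh p q a y)), by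
      rw [mem_filter, mem_product, mem, mem]
      exact ⟨⟨⟨x, hx, h1, rfl⟩, ⟨y, hy, h2, rfl⟩⟩, he⟩⟩

end Pool.Agent.J4H3.IX
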